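import Mathlib
import Pool.Agent.Helper44.CK.It

/-!
# The width leaf over a list of points with constant barycentric coordinates (helper52, FLT3 checker)

A point is given by four naturals with sum `s` (barycentric coordinates times `s`).  The points come in pairs
(one comparison less).  `rrB s L n A B C D` is `s` times the digitwise range of the values at the points.
-/

set_option autoImplicit false

namespace Pool.Agent.Helper52.CKB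

open Finset Pool.Agent.Helper44.CK

/-- a point: barycentric coordinates times `s` -/
structure BP where
  b0 : ℕ
  b1 : ℕ
  b2 : ℕ
  b3 : ℕ

/-- raw value at a point -/
def vB (X0 X1 X2 X3 : ℕ) (b : BP) : ℕ :=
  Nat.add (Nat.add (Nat.mul b.b0 X0) (Nat.mul b.b1 X1)) (Nat.add (Nat.mul b.b2 X2) (Nat.mul b.b3 X3))

/-- raw range of the remaining points (`K` will be `KH`), `M` the largest and `m` the smallest value so far -/
def goB (K X0 X1 X2 X3 : ℕ) : List (BP × BP) → ℕ → ℕ → ℕ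
  | [], M, m => Nat.sub M m
  | b :: l, M, m =>
    (fun V W =>
      (fun d =>
        goB K X0 X1 X2 X3 l (Nat.add M (difR K (Nat.add W d) M)) (Nat.sub m (difR K m (Nat.sub V d))))
        (difR K V W))
      (vB X0 X1 X2 X3 b.1) (vB X0 X1 X2 X3 b.2)

/-- raw range -/
def stB (K : ℕ) (L : List (BP × BP)) (X0 X1 X2 X3 : ℕ) : ℕ :=
  match L with
  | [] => 0
  | b :: l =>
    (fun V W => (fun d => goB K X0 X1 X2 X3 l (Nat.add W d) (Nat.sub V d)) (difR K V W))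
      (vB X0 X1 X2 X3 b.1) (vB X0 X1 X2 X3 b.2)

/-- raw range for the direction `n` -/
def rrB (L : List (BP × BP)) (n0 n1 n2 n3 : ℕ) (A B C D : Col) : ℕ :=
  stB KH L (ad (xe 32 64 96 n0 n1 n2 n3 A B C D) KQ) (ad (xo 0 64 96 n0 n1 n2 n3 A B C D) KQ)
    (ad (xe 0 32 96 n0 n1 n2 n3 A B C D) KQ) (ad (xo 0 32 64 n0 n1 n2 n3 A B C D) KQ)

/-- the sum of the coordinates is `s` -/
def BP.ok (s : ℕ) (b : BP) : Prop := b.b0 + b.b1 + b.b2 + b.b3 = s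

/-- the check of the list -/
def okB (s : ℕ) : List (BP × BP) → Bool
  | [] => true
  | b :: l =>
    cond (Nat.beq (Nat.add (Nat.add b.1.b0 b.1.b1) (Nat.add b.1.b2 b.1.b3)) s)
      (cond (Nat.beq (Nat.add (Nat.add b.2.b0 b.2.b1) (Nat.add b.2.b2 b.2.b3)) s) (okB s l) false) false

lemma okB_spec {s : ℕ} {L : List (BP × BP)} (h : okB s L = true) : ∀ b ∈ L, b.1.ok s ∧ b.2.ok s := by
  induction L with
  | nil => simp
  | cons b l ih =>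
    unfold okB at h
    cases h1 : Nat.beq (Nat.add (Nat.add b.1.b0 b.1.b1) (Nat.add b.1.b2 b.1.b3)) s with
    | false => rw [h1] at h; exact absurd h (by simp)
    | true =>
      cases h2 : Nat.beq (Nat.add (Nat.add b.2.b0 b.2.b1) (Nat.add b.2.b2 b.2.b3)) s with
      | false => rw [h1, h2] at h; exact absurd h (by simp)
      | true =>
        rw [h1, h2] at h
        have e1 : (b.1.b0 + b.1.b1) + (b.1.b2 + b.1.b3) = s := Nat.eq_of_beq_eq_true h1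
        have e2 : (b.2.b0 + b.2.b1) + (b.2.b2 + b.2.b3) = s := Nat.eq_of_beq_eq_true h2
        intro c hc
        rcases List.mem_cons.1 hc with rfl | hc
        · exact ⟨by unfold BP.ok; omega, by unfold BP.ok; omega⟩
        · exact ih h c hc

attribute [local irreducible] KH KQ difR

/-! ### Naturals -/

/-- natural range -/
def goN (w : BP → ℕ) : List (BP × BP) → ℕ → ℕ → ℕ
  | [], M, m => M - m
  | b :: l, M, m => goN w l (max (max (w b.1) (w b.2)) M) (min m (min (w b.1) (w b.2)))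

/-- the natural value -/
def wN (g0 g1 g2 g3 : ℕ) (b : BP) : ℕ := (b.b0 * g0 + b.b1 * g1) + (b.b2 * g2 + b.b3 * g3)

lemma vB_np {X0 X1 X2 X3 : ℕ} {g0 g1 g2 g3 : (Fin 4 → Fin 3) → ℕ} (h0 : Np X0 g0) (h1 : Np X1 g1)
    (h2 : Np X2 g2) (h3 : Np X3 g3) (l0 : ∀ r, g0 r < 2 ^ 111) (l1 : ∀ r, g1 r < 2 ^ 111)
    (l2 : ∀ r, g2 r < 2 ^ 111) (l3 : ∀ r, g3 r < 2 ^ 111) {s : ℕ} (hs : s ≤ 4096) {b : BP} (hb : b.ok s) :
    Np (vB X0 X1 X2 X3 b) (fun r => wN (g0 r) (g1 r) (g2 r) (g3 r) b) ∧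
      ∀ r, wN (g0 r) (g1 r) (g2 r) (g3 r) b < 2 ^ 124 := by
  unfold BP.ok at hb
  have t0 : ∀ r, b.b0 * g0 r ≤ b.b0 * 2 ^ 111 := fun r => Nat.mul_le_mul_left _ (l0 r).le
  have t1 : ∀ r, b.b1 * g1 r ≤ b.b1 * 2 ^ 111 := fun r => Nat.mul_le_mul_left _ (l1 r).le
  have t2 : ∀ r, b.b2 * g2 r ≤ b.b2 * 2 ^ 111 := fun r => Nat.mul_le_mul_left _ (l2 r).le
  have t3 : ∀ r, b.b3 * g3 r ≤ b.b3 * 2 ^ 111 := fun r => Nat.mul_le_mul_left _ (l3 r).le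
  have key : ∀ r, (b.b0 * g0 r + b.b1 * g1 r) + (b.b2 * g2 r + b.b3 * g3 r) < 2 ^ 124 := by
    intro r
    have a0 := t0 r
    have a1 := t1 r
    have a2 := t2 r
    have a3 := t3 r
    have : (b.b0 + b.b1 + b.b2 + b.b3) * 2 ^ 111 ≤ 4096 * 2 ^ 111 := Nat.mul_le_mul_right _ (by omega)
    generalize b.b0 * g0 r = z0 at *
    generalize b.b1 * g1 r = z1 at *
    generalize b.b2 * g2 r = z2 at *
    generalize b.b3 * g3 r = z3 at *
    have e : (4096 : ℕ) * 2 ^ 111 < 2 ^ 124 := by norm_num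
    have e2 : (b.b0 + b.b1 + b.b2 + b.b3) * 2 ^ 111
        = b.b0 * 2 ^ 111 + b.b1 * 2 ^ 111 + b.b2 * 2 ^ 111 + b.b3 * 2 ^ 111 := by ring
    omega
  have q : (2 : ℕ) ^ 124 ≤ Hb := by norm_num
  have le0 : ∀ a b c d : ℕ, a ≤ a + b + (c + d) := fun a b c d => by omega
  have le1 : ∀ a b c d : ℕ, b ≤ a + b + (c + d) := fun a b c d => by omega
  have le2 : ∀ a b c d : ℕ, c ≤ a + b + (c + d) := fun a b c d => by omega
  have le3 : ∀ a b c d : ℕ, d ≤ a + b + (c + d) := fun a b c d => by omega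
  have le01 : ∀ a b c d : ℕ, a + b ≤ a + b + (c + d) := fun a b c d => by omega
  have le23 : ∀ a b c d : ℕ, c + d ≤ a + b + (c + d) := fun a b c d => by omega
  have k0 := h0.mul b.b0 (fun r => lt_of_le_of_lt (le0 _ _ _ _) (lt_of_lt_of_le (key r) q))
  have k1 := h1.mul b.b1 (fun r => lt_of_le_of_lt (le1 _ _ _ _) (lt_of_lt_of_le (key r) q))
  have k2 := h2.mul b.b2 (fun r => lt_of_le_of_lt (le2 _ _ _ _) (lt_of_lt_of_le (key r) q))
  have k3 := h3.mul b.b3 (fun r => lt_of_le_of_lt (le3 _ _ _ _) (lt_of_lt_of_le (key r) q))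
  have k01 := k0.add k1 (fun r => lt_of_le_of_lt (le01 _ _ _ _) (lt_of_lt_of_le (key r) q))
  have k23 := k2.add k3 (fun r => lt_of_le_of_lt (le23 _ _ _ _) (lt_of_lt_of_le (key r) q))
  have k := k01.add k23 (fun r => lt_of_lt_of_le (key r) q)
  exact ⟨k, key⟩

lemma npmax {K : ℕ} (hK : K = KH) {A B : ℕ} {g h : (Fin 4 → Fin 3) → ℕ} (hA : Np A g) (hB : Np B h) :
    Np (Nat.add B (difR K A B)) (fun r => max (g r) (h r)) := by
  subst hK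
  exact hA.max hB

lemma npmin {K : ℕ} (hK : K = KH) {A B : ℕ} {g h : (Fin 4 → Fin 3) → ℕ} (hA : Np A g) (hB : Np B h) :
    Np (Nat.sub A (difR K A B)) (fun r => min (g r) (h r)) := by
  subst hK
  exact hA.min hB

lemma goB_nil (K X0 X1 X2 X3 M m : ℕ) : goB K X0 X1 X2 X3 [] M m = Nat.sub M m := rfl

lemma goB_cons (K X0 X1 X2 X3 : ℕ) (b : BP × BP) (l : List (BP × BP)) (M m : ℕ) :
    goB K X0 X1 X2 X3 (b :: l) M m
      = goB K X0 X1 X2 X3 l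
        (Nat.add M (difR K (Nat.add (vB X0 X1 X2 X3 b.2) (difR K (vB X0 X1 X2 X3 b.1) (vB X0 X1 X2 X3 b.2))) M))
        (Nat.sub m (difR K m
          (Nat.sub (vB X0 X1 X2 X3 b.1) (difR K (vB X0 X1 X2 X3 b.1) (vB X0 X1 X2 X3 b.2))))) := rfl

lemma goB_np {K : ℕ} (hK : K = KH) {X0 X1 X2 X3 : ℕ} {g0 g1 g2 g3 : (Fin 4 → Fin 3) → ℕ} (h0 : Np X0 g0)
    (h1 : Np X1 g1) (h2 : Np X2 g2) (h3 : Np X3 g3) (l0 : ∀ r, g0 r < 2 ^ 111) (l1 : ∀ r, g1 r < 2 ^ 111)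
    (l2 : ∀ r, g2 r < 2 ^ 111) (l3 : ∀ r, g3 r < 2 ^ 111) {s : ℕ} (hs : s ≤ 4096) (L : List (BP × BP))
    (hL : ∀ b ∈ L, b.1.ok s ∧ b.2.ok s) {M m : ℕ} {gM gm : (Fin 4 → Fin 3) → ℕ} (hM : Np M gM) (hm : Np m gm)
    (hle : ∀ r, gm r ≤ gM r) :
    Np (goB K X0 X1 X2 X3 L M m) (fun r => goN (wN (g0 r) (g1 r) (g2 r) (g3 r)) L (gM r) (gm r)) := by
  induction L generalizing M m gM gm with
  | nil =>
    rw [goB_nil]
    exact hM.sub hm hle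
  | cons b l ih =>
    obtain ⟨c1, c2⟩ := hL b (List.mem_cons_self ..)
    obtain ⟨v1, -⟩ := vB_np h0 h1 h2 h3 l0 l1 l2 l3 hs c1
    obtain ⟨v2, -⟩ := vB_np h0 h1 h2 h3 l0 l1 l2 l3 hs c2
    have k := ih (fun c hc => hL c (List.mem_cons_of_mem _ hc)) (npmax hK (npmax hK v1 v2) hM)
      (npmin hK hm (npmin hK v1 v2)) (fun r => le_trans (min_le_left _ _) (le_trans (hle r) (le_max_right _ _)))
    rw [goB_cons]
    exact k

/-! ### Integers -/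

/-- integer range -/
def goZ (v : BP → ℤ) : List (BP × BP) → ℤ → ℤ → ℤ
  | [], M, m => M - m
  | b :: l, M, m => goZ v l (max (max (v b.1) (v b.2)) M) (min m (min (v b.1) (v b.2)))

lemma goN_goZ (w : BP → ℕ) (v : BP → ℤ) (sh : ℤ) (L : List (BP × BP))
    (hw : ∀ b ∈ L, (w b.1 : ℤ) = v b.1 + sh ∧ (w b.2 : ℤ) = v b.2 + sh) (M m : ℕ) (M' m' : ℤ)
    (hM : (M : ℤ) = M' + sh) (hm : (m : ℤ) = m' + sh) (hle : m ≤ M) :
    ((goN w L M m : ℕ) : ℤ) = goZ v L M' m' := by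
  induction L generalizing M m M' m' with
  | nil =>
    unfold goN goZ
    rw [Nat.cast_sub hle, hM, hm]
    ring
  | cons b l ih =>
    obtain ⟨c1, c2⟩ := hw b (List.mem_cons_self ..)
    unfold goN goZ
    refine ih (fun c hc => hw c (List.mem_cons_of_mem _ hc)) _ _ _ _ ?_ ?_ ?_
    · rw [Nat.cast_max, Nat.cast_max, c1, c2, hM, max_add_add_right, max_add_add_right]
    · rw [Nat.cast_min, Nat.cast_min, c1, c2, hm, min_add_add_right, min_add_add_right]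
    · exact le_trans (min_le_left _ _) (le_trans hle (le_max_right _ _))

lemma goZ_bd (v : BP → ℤ) (B : ℤ) (L : List (BP × BP)) (hv : ∀ b ∈ L, |v b.1| ≤ B ∧ |v b.2| ≤ B) (M m : ℤ)
    (hM : |M| ≤ B) (hm : |m| ≤ B) : |goZ v L M m| ≤ 2 * B := by
  induction L generalizing M m with
  | nil =>
    unfold goZ
    rw [abs_le] at *
    constructor <;> omega
  | cons b l ih =>
    obtain ⟨c1, c2⟩ := hv b (List.mem_cons_self ..)
    unfold goZ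
    refine ih (fun c hc => hv c (List.mem_cons_of_mem _ hc)) _ _ ?_ ?_
    · rw [abs_le] at *
      constructor <;> omega
    · rw [abs_le] at *
      constructor <;> omega

/-! ### Reals -/

/-- real range -/
noncomputable def goR (y : BP → Cols → ℝ) : List (BP × BP) → (Cols → ℝ) → (Cols → ℝ) → Cols → ℝ
  | [], M, m => fun D => M D - m D
  | b :: l, M, m => goR y l (fun D => max (max (y b.1 D) (y b.2 D)) (M D))
      (fun D => min (m D) (min (y b.1 D) (y b.2 D)))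

lemma goR_cc (y : BP → Cols → ℝ) (hy : ∀ b, MA (y b)) (L : List (BP × BP)) (M m : Cols → ℝ)
    (hM : CC (fun D => - M D)) (hm : CC m) : CC (fun D => - goR y L M m D) := by
  induction L generalizing M m with
  | nil =>
    refine (hM.add hm).congr fun D => ?_
    unfold goR
    ring
  | cons b l ih =>
    unfold goR
    refine ih _ _ ?_ ?_
    · refine (((hy b.1).neg.cc.min (hy b.2).neg.cc).min hM).congr fun D => ?_
      rw [min_neg_neg, min_neg_neg]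
    · exact hm.min ((hy b.1).cc.min (hy b.2).cc)

lemma goR_cast (y : BP → Cols → ℝ) (v : BP → ℤ) (E : Cols) (L : List (BP × BP))
    (hv : ∀ b ∈ L, y b.1 E = v b.1 ∧ y b.2 E = v b.2) (M m : Cols → ℝ) (M' m' : ℤ) (hM : M E = M') (hm : m E = m') :
    goR y L M m E = goZ v L M' m' := by
  induction L generalizing M m M' m' with
  | nil =>
    unfold goR goZ
    rw [hM, hm]
    push_cast
    rfl
  | cons b l ih =>
    obtain ⟨c1, c2⟩ := hv b (List.mem_cons_self ..)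
    unfold goR goZ
    refine ih (fun c hc => hv c (List.mem_cons_of_mem _ hc)) _ _ _ _ ?_ ?_
    · try simp only []
      rw [c1, c2, hM]
      push_cast
      rfl
    · try simp only []
      rw [c1, c2, hm]
      push_cast
      rfl

lemma goR_bd (y : BP → Cols → ℝ) (D : Cols) (L : List (BP × BP)) (M m : Cols → ℝ) :
    ∃ MX MN : ℝ, goR y L M m D = MX - MN ∧ M D ≤ MX ∧ MN ≤ m D ∧
      ∀ b ∈ L, (MN ≤ y b.1 D ∧ y b.1 D ≤ MX) ∧ MN ≤ y b.2 D ∧ y b.2 D ≤ MX := by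
  induction L generalizing M m with
  | nil => exact ⟨M D, m D, rfl, le_rfl, le_rfl, by simp⟩
  | cons b l ih =>
    obtain ⟨MX, MN, h1, h2, h3, h4⟩ := ih (fun D => max (max (y b.1 D) (y b.2 D)) (M D))
      (fun D => min (m D) (min (y b.1 D) (y b.2 D)))
    try simp only [] at h2 h3
    rw [max_le_iff, max_le_iff] at h2
    rw [le_min_iff, le_min_iff] at h3
    refine ⟨MX, MN, h1, h2.2, h3.1, fun c hc => ?_⟩
    rcases List.mem_cons.1 hc with rfl | hc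
    · exact ⟨⟨h3.2.1, h2.1.1⟩, h3.2.2, h2.1.2⟩
    · exact h4 c hc

/-! ### The item -/

/-- `T` is packed with a function, minus which is concave, and which is large at `D`; scale `s`. -/
def RRs (C : Fin 4 → Col) (D : Cols) (s T : ℕ) : Prop :=
  ∃ Y : Cols → ℝ, CC (fun D => - Y D) ∧ Bs C T Y (2 ^ 61 * s) ∧
    |det4 (aug D)| * (s * (577 / 169) / 65536) ≤ Y D

lemma RRs.rr {C : Fin 4 → Col} {D : Cols} {T : ℕ} (h : RRs C D 64 T) : RR C D T := by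
  obtain ⟨Y, h1, h2, h3⟩ := h
  exact ⟨Y, h1, h2.mono (by norm_num), by exact_mod_cast h3⟩

/-- The width fact for the points of the list. -/
def WidB (D : Cols) (s : ℕ) (L : List (BP × BP)) (n : Fin 4 → ℤ) : Prop :=
  ∃ y : Fin 4 → ℝ, (∀ k, ∑ i, D k i * y i = n k) ∧
    ∀ M m : ℝ, (∀ b ∈ L, (m ≤ (b.1.b0 * y 0 + b.1.b1 * y 1 + b.1.b2 * y 2 + b.1.b3 * y 3) / s ∧
        (b.1.b0 * y 0 + b.1.b1 * y 1 + b.1.b2 * y 2 + b.1.b3 * y 3) / s ≤ M) ∧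
      m ≤ (b.2.b0 * y 0 + b.2.b1 * y 1 + b.2.b2 * y 2 + b.2.b3 * y 3) / s ∧
        (b.2.b0 * y 0 + b.2.b1 * y 1 + b.2.b2 * y 2 + b.2.b3 * y 3) / s ≤ M) → 577 / 169 ≤ M - m

lemma wid_key' (V : Set ℝ) (d S mn Mx σ : ℝ) (hσ : 0 < σ) (hV : V.Nonempty)
    (h : ∀ M m : ℝ, (∀ p ∈ V, m ≤ p ∧ p ≤ M) → 577 / 169 ≤ M - m)
    (hx : ∀ p ∈ V, mn ≤ σ * (d * ((p - S) / 65536)) ∧ σ * (d * ((p - S) / 65536)) ≤ Mx) :
    |d| * (σ * (577 / 169) / 65536) ≤ Mx - mn := by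
  have h1 := wid_key V d S (64 / σ * mn) (64 / σ * Mx) hV h (fun p hp => by
    obtain ⟨a, b⟩ := hx p hp
    have e : 64 * (d * ((p - S) / 65536)) = 64 / σ * (σ * (d * ((p - S) / 65536))) := by
      field_simp
    rw [e]
    have h64 : 0 ≤ 64 / σ := by positivity
    exact ⟨mul_le_mul_of_nonneg_left a h64, mul_le_mul_of_nonneg_left b h64⟩)
  have e1 : |d| * (σ * (577 / 169) / 65536) = σ / 64 * (|d| * (64 * (577 / 169) / 65536)) := by ring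
  have e2 : Mx - mn = σ / 64 * (64 / σ * Mx - 64 / σ * mn) := by
    field_simp
  rw [e1, e2]
  exact mul_le_mul_of_nonneg_left h1 (by positivity)

/-- the real value at a point -/
noncomputable def yB (Y0 Y1 Y2 Y3 : Cols → ℝ) (b : BP) (D : Cols) : ℝ :=
  ((b.b0 : ℝ) * Y0 D + (b.b1 : ℝ) * Y1 D) + ((b.b2 : ℝ) * Y2 D + (b.b3 : ℝ) * Y3 D)

/-- the integer value -/
def vZ (x0 x1 x2 x3 : ℤ) (b : BP) : ℤ := ((b.b0 : ℤ) * x0 + b.b1 * x1) + (b.b2 * x2 + b.b3 * x3)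

lemma wN_eq {s : ℕ} {b : BP} (hb : b.ok s) (x0 x1 x2 x3 : ℤ) (h0 : |x0| < 2 ^ 110) (h1 : |x1| < 2 ^ 110)
    (h2 : |x2| < 2 ^ 110) (h3 : |x3| < 2 ^ 110) :
    ((wN (x0 + 2 ^ 110).toNat (x1 + 2 ^ 110).toNat (x2 + 2 ^ 110).toNat (x3 + 2 ^ 110).toNat b : ℕ) : ℤ)
      = vZ x0 x1 x2 x3 b + s * 2 ^ 110 := by
  unfold BP.ok at hb
  unfold wN vZ
  have e : ∀ x : ℤ, |x| < 2 ^ 110 → (((x + 2 ^ 110).toNat : ℕ) : ℤ) = x + 2 ^ 110 := fun x hx => by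
    rw [Int.toNat_of_nonneg]
    have := (abs_lt.1 hx).1
    linarith
  have k0 := e x0 h0
  have k1 := e x1 h1
  have k2 := e x2 h2
  have k3 := e x3 h3
  rw [← hb]
  rw [Nat.cast_add, Nat.cast_add, Nat.cast_add, Nat.cast_mul, Nat.cast_mul, Nat.cast_mul, Nat.cast_mul, k0, k1, k2, k3]
  push_cast
  ring

lemma vZ_bd {s : ℕ} {b : BP} (hb : b.ok s) {x0 x1 x2 x3 B : ℤ} (h0 : |x0| ≤ B) (h1 : |x1| ≤ B)
    (h2 : |x2| ≤ B) (h3 : |x3| ≤ B) : |vZ x0 x1 x2 x3 b| ≤ s * B := by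
  unfold BP.ok at hb
  unfold vZ
  have e : ∀ (c : ℕ) (x : ℤ), |x| ≤ B → |(c : ℤ) * x| ≤ c * B := fun c x hx =>
    b_mul (le_of_eq (abs_of_nonneg (Int.natCast_nonneg c))) hx
  have k := b_add (b_add (e b.b0 x0 h0) (e b.b1 x1 h1)) (b_add (e b.b2 x2 h2) (e b.b3 x3 h3))
  refine k.trans (le_of_eq ?_)
  rw [← hb]
  push_cast
  ring

lemma toNat_lt (v : (Fin 4 → Fin 3) → ℤ) (hv : ∀ r, |v r| < 2 ^ 110) (r : Fin 4 → Fin 3) :
    (v r + 2 ^ 110).toNat < 2 ^ 111 := by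
  have h1 := (abs_lt.1 (hv r)).1
  have h2 := (abs_lt.1 (hv r)).2
  rw [Int.toNat_lt (by linarith)]
  push_cast
  linarith

/-- the raw range is the range of the points, at every corner -/
lemma stB_bs {K : ℕ} (hK : K = KH) {C : Fin 4 → Col} {T0 T1 T2 T3 : ℕ} {Y0 Y1 Y2 Y3 : Cols → ℝ} (h0 : Bs C T0 Y0 (2 ^ 59))
    (h1 : Bs C T1 Y1 (2 ^ 59)) (h2 : Bs C T2 Y2 (2 ^ 59)) (h3 : Bs C T3 Y3 (2 ^ 59)) {s : ℕ}
    (hs : s ≤ 4096) (b : BP × BP) (l : List (BP × BP)) (hb : ∀ c ∈ b :: l, c.1.ok s ∧ c.2.ok s) :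
    Bs C (stB K (b :: l) (ad T0 KQ) (ad T1 KQ) (ad T2 KQ) (ad T3 KQ))
      (goR (yB Y0 Y1 Y2 Y3) l (fun D => max (yB Y0 Y1 Y2 Y3 b.1 D) (yB Y0 Y1 Y2 Y3 b.2 D))
        (fun D => min (yB Y0 Y1 Y2 Y3 b.1 D) (yB Y0 Y1 Y2 Y3 b.2 D))) (2 ^ 61 * s) := by
  obtain ⟨v0, a0, c0, d0⟩ := h0
  obtain ⟨v1, a1, c1, d1⟩ := h1
  obtain ⟨v2, a2, c2, d2⟩ := h2
  obtain ⟨v3, a3, c3, d3⟩ := h3
  have hb1 := hb b (List.mem_cons_self ..)
  have hbl : ∀ c ∈ l, c.1.ok s ∧ c.2.ok s := fun c hc => hb c (List.mem_cons_of_mem _ hc)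
  refine ⟨fun r => goZ (vZ (v0 r) (v1 r) (v2 r) (v3 r)) l
    (max (vZ (v0 r) (v1 r) (v2 r) (v3 r) b.1) (vZ (v0 r) (v1 r) (v2 r) (v3 r) b.2))
    (min (vZ (v0 r) (v1 r) (v2 r) (v3 r) b.1) (vZ (v0 r) (v1 r) (v2 r) (v3 r) b.2)),
    ?_, fun r => ?_, fun r => ?_⟩
  · have l0 : ∀ r, |v0 r| < 2 ^ 110 := fun r => lt_of_le_of_lt (d0 r) (by norm_num)
    have l1 : ∀ r, |v1 r| < 2 ^ 110 := fun r => lt_of_le_of_lt (d1 r) (by norm_num)
    have l2 : ∀ r, |v2 r| < 2 ^ 110 := fun r => lt_of_le_of_lt (d2 r) (by norm_num)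
    have l3 : ∀ r, |v3 r| < 2 ^ 110 := fun r => lt_of_le_of_lt (d3 r) (by norm_num)
    have n0 := Np.of_rd a0 l0
    have n1 := Np.of_rd a1 l1
    have n2 := Np.of_rd a2 l2
    have n3 := Np.of_rd a3 l3
    obtain ⟨V1, -⟩ := vB_np n0 n1 n2 n3 (toNat_lt v0 l0) (toNat_lt v1 l1) (toNat_lt v2 l2) (toNat_lt v3 l3)
      hs hb1.1
    obtain ⟨V2, -⟩ := vB_np n0 n1 n2 n3 (toNat_lt v0 l0) (toNat_lt v1 l1) (toNat_lt v2 l2) (toNat_lt v3 l3)
      hs hb1.2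
    have hR := goB_np hK n0 n1 n2 n3 (toNat_lt v0 l0) (toNat_lt v1 l1) (toNat_lt v2 l2) (toNat_lt v3 l3)
      hs l hbl (npmax hK V1 V2) (npmin hK V1 V2) (fun r => le_trans (min_le_left _ _) (le_max_left _ _))
    have e : ((stB K (b :: l) (ad T0 KQ) (ad T1 KQ) (ad T2 KQ) (ad T3 KQ) : ℕ) : ℤ)
        = pk (fun r => goZ (vZ (v0 r) (v1 r) (v2 r) (v3 r)) l
          (max (vZ (v0 r) (v1 r) (v2 r) (v3 r) b.1) (vZ (v0 r) (v1 r) (v2 r) (v3 r) b.2))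
          (min (vZ (v0 r) (v1 r) (v2 r) (v3 r) b.1) (vZ (v0 r) (v1 r) (v2 r) (v3 r) b.2))) := by
      refine Eq.trans hR.toInt ?_
      congr 1
      funext r
      have q1 := wN_eq hb1.1 (v0 r) (v1 r) (v2 r) (v3 r) (l0 r) (l1 r) (l2 r) (l3 r)
      have q2 := wN_eq hb1.2 (v0 r) (v1 r) (v2 r) (v3 r) (l0 r) (l1 r) (l2 r) (l3 r)
      refine goN_goZ _ _ ((s : ℤ) * 2 ^ 110) l (fun c hc =>
        ⟨wN_eq (hbl c hc).1 (v0 r) (v1 r) (v2 r) (v3 r) (l0 r) (l1 r) (l2 r) (l3 r),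
          wN_eq (hbl c hc).2 (v0 r) (v1 r) (v2 r) (v3 r) (l0 r) (l1 r) (l2 r) (l3 r)⟩) _ _ _ _ ?_ ?_ ?_
      · rw [Nat.cast_max, q1, q2, max_add_add_right]
      · rw [Nat.cast_min, q1, q2, min_add_add_right]
      · exact le_trans (min_le_left _ _) (le_max_left _ _)
    rw [← e]
    exact Rd.nat hR.lt_MM
  · have hv : ∀ c : BP, yB Y0 Y1 Y2 Y3 c (crn C r) = (vZ (v0 r) (v1 r) (v2 r) (v3 r) c : ℤ) := fun c => by
      unfold yB vZ
      rw [c0 r, c1 r, c2 r, c3 r]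
      push_cast
      ring
    refine goR_cast _ _ _ l (fun c _ => ⟨hv _, hv _⟩) _ _ _ _ ?_ ?_
    · try simp only []
      rw [hv, hv]
      push_cast
      rfl
    · try simp only []
      rw [hv, hv]
      push_cast
      rfl
  · have k := goZ_bd (vZ (v0 r) (v1 r) (v2 r) (v3 r)) ((s : ℤ) * 2 ^ 59) l (fun c hc =>
      ⟨vZ_bd (hbl c hc).1 (d0 r) (d1 r) (d2 r) (d3 r), vZ_bd (hbl c hc).2 (d0 r) (d1 r) (d2 r) (d3 r)⟩)
      (max (vZ (v0 r) (v1 r) (v2 r) (v3 r) b.1) (vZ (v0 r) (v1 r) (v2 r) (v3 r) b.2))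
      (min (vZ (v0 r) (v1 r) (v2 r) (v3 r) b.1) (vZ (v0 r) (v1 r) (v2 r) (v3 r) b.2))
      (by
        have z1 := vZ_bd hb1.1 (d0 r) (d1 r) (d2 r) (d3 r)
        have z2 := vZ_bd hb1.2 (d0 r) (d1 r) (d2 r) (d3 r)
        rw [abs_le] at *
        exact ⟨le_trans z1.1 (le_max_left _ _), max_le z1.2 z2.2⟩)
      (by
        have z1 := vZ_bd hb1.1 (d0 r) (d1 r) (d2 r) (d3 r)
        have z2 := vZ_bd hb1.2 (d0 r) (d1 r) (d2 r) (d3 r)
        rw [abs_le] at *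
        exact ⟨le_min z1.1 z2.1, le_trans (min_le_left _ _) z1.2⟩)
    refine k.trans ?_
    have : (0 : ℤ) ≤ s := Int.natCast_nonneg s
    nlinarith

/-- **The width leaf over a list of points.** -/
theorem rrB_ok {C : Fin 4 → Col} (hC : ∀ k i, Gd (vt (C k) i)) {D : Cols} (hsum : ∀ k, ∑ j, D k j = 1)
    (n0 n1 n2 n3 : ℕ) (b0 : n0 ≤ 7) (b1 : n1 ≤ 7) (b2 : n2 ≤ 7) (b3 : n3 ≤ 7) {s : ℕ} (hs : s ≤ 4096)
    (hs0 : 0 < s) {L : List (BP × BP)} (hL : ∀ b ∈ L, b.1.ok s ∧ b.2.ok s)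
    (hw : WidB D s L ![(n0 : ℤ), n1, n2, n3]) : RRs C D s (rrB L n0 n1 n2 n3 (C 0) (C 1) (C 2) (C 3)) := by
  cases L with
  | nil =>
    obtain ⟨y, -, h⟩ := hw
    exact absurd (h 0 0 (by simp)) (by norm_num)
  | cons b l =>
    have c0 := xeB hC 1 2 3 E1 E2 E3 n0 n1 n2 n3 b0 b1 b2 b3
    have c1 := xoB hC 0 2 3 E0 E2 E3 n0 n1 n2 n3 b0 b1 b2 b3
    have c2 := xeB hC 0 1 3 E0 E1 E3 n0 n1 n2 n3 b0 b1 b2 b3
    have c3 := xoB hC 0 1 2 E0 E1 E2 n0 n1 n2 n3 b0 b1 b2 b3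
    have m0 := xR_MA 1 2 3 E1 E2 E3 n0 n1 n2 n3
    have m1 := xRo_MA 0 2 3 E0 E2 E3 n0 n1 n2 n3
    have m2 := xR_MA 0 1 3 E0 E1 E3 n0 n1 n2 n3
    have m3 := xRo_MA 0 1 2 E0 E1 E2 n0 n1 n2 n3
    set Y0 : Cols → ℝ := fun D => xR 1 2 3 n0 n1 n2 n3 (aug D) with hY0
    set Y1 : Cols → ℝ := fun D => xRo 0 2 3 n0 n1 n2 n3 (aug D) with hY1
    set Y2 : Cols → ℝ := fun D => xR 0 1 3 n0 n1 n2 n3 (aug D) with hY2
    set Y3 : Cols → ℝ := fun D => xRo 0 1 2 n0 n1 n2 n3 (aug D) with hY3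
    have hMA : ∀ c, MA (yB Y0 Y1 Y2 Y3 c) := fun c =>
      ((m0.smul (c.b0 : ℝ)).add (m1.smul (c.b1 : ℝ))).add ((m2.smul (c.b2 : ℝ)).add (m3.smul (c.b3 : ℝ)))
    refine ⟨goR (yB Y0 Y1 Y2 Y3) l (fun D => max (yB Y0 Y1 Y2 Y3 b.1 D) (yB Y0 Y1 Y2 Y3 b.2 D))
        (fun D => min (yB Y0 Y1 Y2 Y3 b.1 D) (yB Y0 Y1 Y2 Y3 b.2 D)), ?_, ?_, ?_⟩
    · refine goR_cc _ hMA l _ _ ?_ ?_
      · refine ((hMA b.1).neg.cc.min (hMA b.2).neg.cc).congr fun D => ?_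
        rw [min_neg_neg]
      · exact (hMA b.1).cc.min (hMA b.2).cc
    · have k := stB_bs (K := KH) rfl c0 c1 c2 c3 hs b l hL
      exact k
    · obtain ⟨y, hy, hM⟩ := hw
      obtain ⟨x0, x1, x2, x3⟩ := x_at hsum n0 n1 n2 n3 y (by simpa using hy 0) (by simpa using hy 1)
        (by simpa using hy 2) (by simpa using hy 3)
      obtain ⟨MX, MN, e1, e2, e3, e4⟩ := goR_bd (yB Y0 Y1 Y2 Y3) D l
        (fun D => max (yB Y0 Y1 Y2 Y3 b.1 D) (yB Y0 Y1 Y2 Y3 b.2 D))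
        (fun D => min (yB Y0 Y1 Y2 Y3 b.1 D) (yB Y0 Y1 Y2 Y3 b.2 D))
      try simp only [] at e2 e3
      rw [max_le_iff] at e2
      rw [le_min_iff] at e3
      have hs' : (0 : ℝ) < s := by exact_mod_cast hs0
      set d := det4 (aug D) with hd
      set S := (y 0 + y 1 + y 2 + y 3) / 5 with hS
      have val : ∀ c : BP, c.ok s → yB Y0 Y1 Y2 Y3 c D
          = s * (d * (((c.b0 * y 0 + c.b1 * y 1 + c.b2 * y 2 + c.b3 * y 3) / s - S) / 65536)) := by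
        intro c hc
        unfold BP.ok at hc
        have hc' : (s : ℝ) = c.b0 + c.b1 + c.b2 + c.b3 := by
          rw [← hc]
          push_cast
          ring
        have hz : (s : ℝ) * (d * (((c.b0 * y 0 + c.b1 * y 1 + c.b2 * y 2 + c.b3 * y 3) / s - S) / 65536))
            = d * ((c.b0 * y 0 + c.b1 * y 1 + c.b2 * y 2 + c.b3 * y 3) - s * S) / 65536 := by
          field_simp
        rw [hz, hc']
        unfold yB
        rw [hY0, hY1, hY2, hY3]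
        try simp only []
        rw [x0, x1, x2, x3]
        ring
      have key := wid_key' ({p | ∃ c ∈ b :: l,
          p = (c.1.b0 * y 0 + c.1.b1 * y 1 + c.1.b2 * y 2 + c.1.b3 * y 3) / s ∨
          p = (c.2.b0 * y 0 + c.2.b1 * y 1 + c.2.b2 * y 2 + c.2.b3 * y 3) / s}) d S MN MX s hs'
        ⟨_, b, List.mem_cons_self .., Or.inl rfl⟩
        (fun M m h => hM M m fun c hc => ⟨h _ ⟨c, hc, Or.inl rfl⟩, h _ ⟨c, hc, Or.inr rfl⟩⟩)
        (fun p hp => by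
          obtain ⟨c, hc, hp⟩ := hp
          have hq : (MN ≤ yB Y0 Y1 Y2 Y3 c.1 D ∧ yB Y0 Y1 Y2 Y3 c.1 D ≤ MX) ∧
              MN ≤ yB Y0 Y1 Y2 Y3 c.2 D ∧ yB Y0 Y1 Y2 Y3 c.2 D ≤ MX := by
            rcases List.mem_cons.1 hc with rfl | hc
            · exact ⟨⟨e3.1, e2.1⟩, e3.2, e2.2⟩
            · exact e4 c hc
          obtain ⟨o1, o2⟩ := hL c hc
          rw [val _ o1, val _ o2] at hq
          rcases hp with rfl | rfl
          · exact hq.1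
          · exact hq.2)
      rw [e1]
      exact key

end Pool.Agent.Helper52.CKB
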